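import Pool.Agent.TH985.WP.Defs2

/-!
# `E |det M|^κ` of a Gaussian matrix is positive and finite for `κ > -1`
-/

set_option autoImplicit false
open MeasureTheory ProbabilityTheory Matrix
open scoped ENNReal

namespace Pool.Agent.TH511.WP

open Pool.Agent.TH985.WP

/-- resampling one coordinate -/
theorem resample {ι X : Type*} [Fintype ι] [DecidableEq ι] [MeasurableSpace X]
    (μ : Measure X) [IsProbabilityMeasure μ] (i : ι) (f : (ι → X) → ℝ≥0∞) (hf : Measurable f) :
    ∫⁻ x, f x ∂(Measure.pi fun _ : ι => μ) =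
      ∫⁻ x, ∫⁻ y, f (Function.update x i y) ∂μ ∂(Measure.pi fun _ : ι => μ) := by
  rcases isEmpty_or_nonempty (ι → X) with he | ⟨⟨x0⟩⟩
  · have h1 : f = fun x => ∫⁻ y, f (Function.update x i y) ∂μ := by
      funext x
      exact (he.false x).elim
    rw [← h1]
  let g : (ι → X) → ℝ≥0∞ := fun x => ∫⁻ y, f (Function.update x i y) ∂μ
  have hg : Measurable g := by
    have := Measurable.lmarginal (s := {i}) (fun _ : ι => μ) hf
    rw [lmarginal_singleton] at this
    exact this
  rw [lintegral_eq_lmarginal_univ (μ := fun _ : ι => μ) (f := f) x0,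
    lmarginal_erase' (μ := fun _ : ι => μ) f hf (Finset.mem_univ i)]
  change _ = ∫⁻ x, g x ∂(Measure.pi fun _ : ι => μ)
  rw [lintegral_eq_lmarginal_univ (μ := fun _ : ι => μ) (f := g) x0,
    lmarginal_erase' (μ := fun _ : ι => μ) g hg (Finset.mem_univ i)]
  have h2 : (fun x => ∫⁻ y, g (Function.update x i y) ∂μ) = g := by
    funext x
    have h3 : ∀ y, g (Function.update x i y) = g x := by
      intro y
      simp only [g, Function.update_idem]
    simp only [h3, lintegral_const, measure_univ, mul_one]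
  rw [h2]

/-- a matrix with the entry `(0, 0)` replaced -/
def rep {n : ℕ} (M : Fin (n + 1) → Fin (n + 1) → ℝ) (y : ℝ) : Fin (n + 1) → Fin (n + 1) → ℝ :=
  Function.update M 0 (Function.update (M 0) 0 y)

theorem rep_meas (n : ℕ) : Measurable fun p : (Fin (n + 1) → Fin (n + 1) → ℝ) × ℝ =>
    rep p.1 p.2 := by
  refine measurable_pi_lambda _ fun k => measurable_pi_lambda _ fun j => ?_
  unfold rep
  by_cases hk : k = 0
  · subst hk
    simp only [Function.update_self]
    by_cases hj : j = 0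
    · subst hj
      simp only [Function.update_self]
      exact measurable_snd
    · simp only [Function.update_of_ne hj]
      fun_prop
  · simp only [Function.update_of_ne hk]
    fun_prop

theorem resample2 {n : ℕ} (F : (Fin (n + 1) → Fin (n + 1) → ℝ) → ℝ≥0∞) (hF : Measurable F) :
    ∫⁻ M, F M ∂(gmat (Fin (n + 1)) (Fin (n + 1))) =
      ∫⁻ M, ∫⁻ y, F (rep M y) ∂(gaussianReal 0 1) ∂(gmat (Fin (n + 1)) (Fin (n + 1))) := by
  have hG : Measurable fun M : Fin (n + 1) → Fin (n + 1) → ℝ =>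
      ∫⁻ y, F (rep M y) ∂(gaussianReal 0 1) :=
    (hF.comp (rep_meas n)).lintegral_prod_right'
  unfold gmat
  rw [resample (gm (Fin (n + 1))) 0 F hF, resample (gm (Fin (n + 1))) 0 _ hG]
  refine lintegral_congr fun M => ?_
  have hf : Measurable fun r : Fin (n + 1) → ℝ => F (Function.update M 0 r) :=
    hF.comp (measurable_update M)
  unfold gm
  rw [resample (gaussianReal 0 1) 0 _ hf]
  refine lintegral_congr fun r => lintegral_congr fun y => ?_
  unfold rep
  rw [Function.update_idem, Function.update_self]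

/-- the minor -/
def mnr {n : ℕ} (M : Fin (n + 1) → Fin (n + 1) → ℝ) : Fin n → Fin n → ℝ :=
  fun k j => M k.succ j.succ

theorem tail_mp {X : Type*} [MeasurableSpace X] (n : ℕ) (μ : Measure X)
    [IsProbabilityMeasure μ] :
    MeasurePreserving (fun (x : Fin (n + 1) → X) (i : Fin n) => x i.succ)
      (Measure.pi fun _ => μ) (Measure.pi fun _ => μ) := by
  have h1 := measurePreserving_piFinSuccAbove (fun _ : Fin (n + 1) => μ) 0
  have h2 : MeasurePreserving (Prod.snd : X × (Fin n → X) → (Fin n → X))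
      (μ.prod (Measure.pi fun _ => μ)) (Measure.pi fun _ => μ) := measurePreserving_snd
  have h3 := h2.comp h1
  have h4 : (Prod.snd : X × (Fin n → X) → (Fin n → X)) ∘
      (MeasurableEquiv.piFinSuccAbove (fun _ : Fin (n + 1) => X) 0) =
      (fun (x : Fin (n + 1) → X) (i : Fin n) => x i.succ) := by
    funext x i
    simp [MeasurableEquiv.piFinSuccAbove]
    rfl
  rw [h4] at h3
  exact h3

theorem mnr_mp (n : ℕ) : MeasurePreserving (mnr (n := n))
    (gmat (Fin (n + 1)) (Fin (n + 1))) (gmat (Fin n) (Fin n)) := by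
  have h1 := tail_mp n (gm (Fin (n + 1)))
  have h2 : MeasurePreserving (fun (a : Fin n → Fin (n + 1) → ℝ) (i : Fin n) (j : Fin n) =>
      a i j.succ) (Measure.pi fun _ => gm (Fin (n + 1))) (Measure.pi fun _ => gm (Fin n)) :=
    measurePreserving_pi _ _ fun _ => tail_mp n (gaussianReal 0 1)
  exact h2.comp h1

/-- the part of the determinant that does not contain the entry `(0, 0)` -/
noncomputable def bpart {n : ℕ} (M : Fin (n + 1) → Fin (n + 1) → ℝ) : ℝ :=
  ∑ j : Fin n, (-1) ^ (j.succ : ℕ) * M 0 j.succ *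
    ((Matrix.of M).submatrix Fin.succ j.succ.succAbove).det

theorem det_rep {n : ℕ} (M : Fin (n + 1) → Fin (n + 1) → ℝ) (y : ℝ) :
    (Matrix.of (rep M y)).det = y * (Matrix.of (mnr M)).det + bpart M := by
  rw [Matrix.det_succ_row_zero, Fin.sum_univ_succ]
  have hs : ∀ g : Fin n → Fin (n + 1),
      (Matrix.of (rep M y)).submatrix Fin.succ g = (Matrix.of M).submatrix Fin.succ g := by
    intro g
    ext k j
    simp [rep]
  have h0 : (Matrix.of (rep M y)) 0 0 = y := by simp [rep]
  refine congrArg₂ (· + ·) ?_ ?_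
  · rw [h0, hs]
    have : (Matrix.of M).submatrix Fin.succ (Fin.succAbove 0) = Matrix.of (mnr M) := by
      ext k j
      simp [mnr]
    rw [this]
    simp
  · unfold bpart
    refine Finset.sum_congr rfl fun j _ => ?_
    rw [hs]
    have : (Matrix.of (rep M y)) 0 j.succ = M 0 j.succ := by
      simp [rep]
    rw [this]

theorem det_meas {ι : Type*} [Fintype ι] [DecidableEq ι] :
    Measurable fun M : ι → ι → ℝ => (Matrix.of M).det := by
  have : Continuous fun M : ι → ι → ℝ => (Matrix.of M).det :=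
    Continuous.matrix_det (continuous_id)
  exact this.measurable

theorem detw_meas {ι : Type*} [Fintype ι] [DecidableEq ι] (κ : ℝ) :
    Measurable (detw (ι := ι) κ) := by
  unfold detw
  exact ENNReal.measurable_ofReal.comp (det_meas.norm.pow_const κ)

/-- the determinant is almost surely not zero -/
theorem det_ae (n : ℕ) : ∀ᵐ M ∂(gmat (Fin n) (Fin n)), (Matrix.of M).det ≠ 0 := by
  induction n with
  | zero =>
    refine Filter.Eventually.of_forall fun M => ?_
    rw [Matrix.det_isEmpty]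
    exact one_ne_zero
  | succ n ih =>
    have hS : MeasurableSet {M : Fin (n + 1) → Fin (n + 1) → ℝ | (Matrix.of M).det = 0} :=
      det_meas (measurableSet_singleton 0)
    have h1 := resample2 (n := n)
      (({M : Fin (n + 1) → Fin (n + 1) → ℝ | (Matrix.of M).det = 0}).indicator 1)
      (measurable_one.indicator hS)
    rw [lintegral_indicator_one hS] at h1
    have h2 : ∀ᵐ M ∂(gmat (Fin (n + 1)) (Fin (n + 1))), (Matrix.of (mnr M)).det ≠ 0 :=
      (mnr_mp n).quasiMeasurePreserving.ae ih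
    have h3 : ∫⁻ M, ∫⁻ y, ({M : Fin (n + 1) → Fin (n + 1) → ℝ | (Matrix.of M).det = 0}).indicator 1
        (rep M y) ∂(gaussianReal 0 1) ∂(gmat (Fin (n + 1)) (Fin (n + 1))) = 0 := by
      rw [lintegral_eq_zero_iff']
      · filter_upwards [h2] with M hM
        simp only [Pi.zero_apply]
        have h4 : ∀ y, ({M : Fin (n + 1) → Fin (n + 1) → ℝ | (Matrix.of M).det = 0}).indicator
            (1 : (Fin (n + 1) → Fin (n + 1) → ℝ) → ℝ≥0∞) (rep M y) =
            ({-bpart M / (Matrix.of (mnr M)).det} : Set ℝ).indicator 1 y := by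
          intro y
          by_cases hy : y = -bpart M / (Matrix.of (mnr M)).det
          · rw [Set.indicator_of_mem, Set.indicator_of_mem]
            · rfl
            · exact hy
            · show (Matrix.of (rep M y)).det = 0
              rw [det_rep, hy]
              field_simp
              ring
          · rw [Set.indicator_of_notMem, Set.indicator_of_notMem]
            · exact hy
            · intro h5
              apply hy
              have h6 : (Matrix.of (rep M y)).det = 0 := h5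
              rw [det_rep] at h6
              rw [eq_div_iff hM]
              linarith
        simp only [h4]
        rw [lintegral_indicator_one (measurableSet_singleton _)]
        have : NullSingletonClass (gaussianReal 0 1) :=
          nullSingletonClass_gaussianReal one_ne_zero
        exact measure_singleton _
      · exact (((measurable_one.indicator hS).comp (rep_meas n)).lintegral_prod_right').aemeasurable
    rw [h3] at h1
    rw [ae_iff]
    simpa using h1


theorem gauss_le : gaussianReal 0 1 ≤ volume := by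
  rw [gaussianReal_of_var_ne_zero 0 one_ne_zero]
  refine Measure.le_iff.2 fun s hs => ?_
  rw [withDensity_apply _ hs]
  calc ∫⁻ x in s, gaussianPDF 0 1 x ≤ ∫⁻ x in s, 1 := by
        refine lintegral_mono fun x => ?_
        unfold gaussianPDF
        rw [← ENNReal.ofReal_one]
        refine ENNReal.ofReal_le_ofReal ?_
        unfold gaussianPDFReal
        have h1 : (Real.sqrt (2 * Real.pi * ((1 : NNReal) : ℝ)))⁻¹ ≤ 1 := by
          refine inv_le_one_of_one_le₀ ?_
          rw [Real.one_le_sqrt]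
          have := Real.pi_gt_three
          push_cast
          linarith
        have h2 : Real.exp (-(x - 0) ^ 2 / (2 * ((1 : NNReal) : ℝ))) ≤ 1 := by
          rw [Real.exp_le_one_iff]
          have : 0 ≤ (x - 0) ^ 2 := sq_nonneg _
          push_cast
          linarith
        exact mul_le_one₀ h1 (Real.exp_nonneg _) h2
    _ = volume s := by simp

theorem abs_int (κ : ℝ) (hκ : -1 < κ) :
    ∫⁻ x in Set.Icc (-1 : ℝ) 1, ENNReal.ofReal (|x| ^ κ) < ∞ := by
  have h0 : IntegrableOn (fun x : ℝ => x ^ κ) (Set.Ioc 0 1) := by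
    have := intervalIntegral.intervalIntegrable_rpow' (a := 0) (b := 1) hκ
    exact (intervalIntegrable_iff_integrableOn_Ioc_of_le zero_le_one).1 this
  have h1 : ∫⁻ x in Set.Ioc (0 : ℝ) 1, ENNReal.ofReal (|x| ^ κ) < ∞ := by
    have h2 : ∫⁻ x in Set.Ioc (0 : ℝ) 1, ENNReal.ofReal (|x| ^ κ) =
        ∫⁻ x in Set.Ioc (0 : ℝ) 1, ENNReal.ofReal (x ^ κ) := by
      refine setLIntegral_congr_fun measurableSet_Ioc fun x hx => ?_
      rw [abs_of_pos hx.1]
    rw [h2]
    exact h0.setLIntegral_lt_top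
  have h3 : ∫⁻ x in Set.Ico (-1 : ℝ) 0, ENNReal.ofReal (|x| ^ κ) =
      ∫⁻ x in Set.Ioc (0 : ℝ) 1, ENNReal.ofReal (|x| ^ κ) := by
    have hmp : MeasurePreserving (fun x : ℝ => -x) volume volume :=
      Measure.measurePreserving_neg volume
    have h4 := hmp.setLIntegral_comp_preimage (s := Set.Ioc (0 : ℝ) 1) measurableSet_Ioc
      (f := fun x => ENNReal.ofReal (|x| ^ κ))
      (ENNReal.measurable_ofReal.comp (measurable_norm.pow_const κ))
    rw [← h4]
    have h5 : (fun x : ℝ => -x) ⁻¹' (Set.Ioc (0 : ℝ) 1) = Set.Ico (-1 : ℝ) 0 := by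
      ext x
      simp only [Set.mem_preimage, Set.mem_Ioc, Set.mem_Ico]
      constructor
      · rintro ⟨h, h'⟩; constructor <;> linarith
      · rintro ⟨h, h'⟩; constructor <;> linarith
    rw [h5]
    simp only [abs_neg]
  have h6 : Set.Icc (-1 : ℝ) 1 ⊆ (Set.Ico (-1 : ℝ) 0 ∪ {0}) ∪ Set.Ioc (0 : ℝ) 1 := by
    intro x hx
    rcases lt_trichotomy x 0 with h | h | h
    · exact Or.inl (Or.inl ⟨hx.1, h⟩)
    · exact Or.inl (Or.inr h)
    · exact Or.inr ⟨h, hx.2⟩
  refine (lintegral_mono_set h6).trans_lt ?_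
  refine (lintegral_union_le _ _ _).trans_lt ?_
  refine ENNReal.add_lt_top.2 ⟨(lintegral_union_le _ _ _).trans_lt ?_, h1⟩
  refine ENNReal.add_lt_top.2 ⟨h3 ▸ h1, ?_⟩
  simp

theorem affine_bound (κ : ℝ) (hκ : -1 < κ) (hκ0 : κ ≤ 0) :
    ∃ C : ℝ≥0∞, C < ∞ ∧ ∀ b : ℝ,
      ∫⁻ x, ENNReal.ofReal (|x + b| ^ κ) ∂(gaussianReal 0 1) ≤ C := by
  refine ⟨1 + ∫⁻ x in Set.Icc (-1 : ℝ) 1, ENNReal.ofReal (|x| ^ κ),
    ENNReal.add_lt_top.2 ⟨ENNReal.one_lt_top, abs_int κ hκ⟩, fun b => ?_⟩
  have hm : Measurable fun x : ℝ => ENNReal.ofReal (|x| ^ κ) :=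
    ENNReal.measurable_ofReal.comp (measurable_norm.pow_const κ)
  let I : ℝ → ℝ≥0∞ := (Set.Icc (-1 : ℝ) 1).indicator fun x => ENNReal.ofReal (|x| ^ κ)
  have hI : Measurable I := hm.indicator measurableSet_Icc
  have h1 : ∀ x, ENNReal.ofReal (|x| ^ κ) ≤ 1 + I x := by
    intro x
    by_cases hx : x ∈ Set.Icc (-1 : ℝ) 1
    · simp only [I, Set.indicator_of_mem hx]
      exact le_add_self
    · refine le_trans ?_ le_self_add
      rw [← ENNReal.ofReal_one]
      refine ENNReal.ofReal_le_ofReal ?_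
      refine Real.rpow_le_one_of_one_le_of_nonpos ?_ hκ0
      by_contra h
      exact hx (abs_le.1 (not_le.1 h).le)
  calc ∫⁻ x, ENNReal.ofReal (|x + b| ^ κ) ∂(gaussianReal 0 1)
      ≤ ∫⁻ x, (1 + I (x + b)) ∂(gaussianReal 0 1) := lintegral_mono fun x => h1 (x + b)
    _ = 1 + ∫⁻ x, I (x + b) ∂(gaussianReal 0 1) := by
        rw [lintegral_add_left measurable_const]
        simp
    _ ≤ 1 + ∫⁻ x, I (x + b) := by
        gcongr
        exact gauss_le
    _ = 1 + ∫⁻ x, I x := by
        rw [lintegral_add_right_eq_self I b]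
    _ = _ := by
        rw [lintegral_indicator measurableSet_Icc]

theorem affine_bound' (κ : ℝ) (hκ : -1 < κ) (hκ0 : κ ≤ 0) :
    ∃ C : ℝ≥0∞, C < ∞ ∧ ∀ a b : ℝ, a ≠ 0 →
      ∫⁻ y, ENNReal.ofReal (|y * a + b| ^ κ) ∂(gaussianReal 0 1) ≤
        C * ENNReal.ofReal (|a| ^ κ) := by
  obtain ⟨C, hC, h⟩ := affine_bound κ hκ hκ0
  refine ⟨C, hC, fun a b ha => ?_⟩
  have h1 : ∀ y : ℝ, ENNReal.ofReal (|y * a + b| ^ κ) =
      ENNReal.ofReal (|y + b / a| ^ κ) * ENNReal.ofReal (|a| ^ κ) := by
    intro y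
    have h2 : y * a + b = (y + b / a) * a := by field_simp
    rw [h2, abs_mul, Real.mul_rpow (abs_nonneg _) (abs_nonneg _),
      ENNReal.ofReal_mul (Real.rpow_nonneg (abs_nonneg _) _)]
  simp only [h1]
  rw [lintegral_mul_const' _ _ ENNReal.ofReal_ne_top]
  gcongr
  exact h _

theorem Zc_fin_neg (κ : ℝ) (hκ : -1 < κ) (hκ0 : κ ≤ 0) (n : ℕ) : Zc (Fin n) κ < ∞ := by
  induction n with
  | zero =>
    unfold Zc
    have : ∀ M : Fin 0 → Fin 0 → ℝ, detw κ M = 1 := by
      intro M
      unfold detw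
      rw [Matrix.det_isEmpty]
      simp
    simp only [this]
    simp
  | succ n ih =>
    obtain ⟨C, hC, h⟩ := affine_bound' κ hκ hκ0
    have h2 : ∀ᵐ M ∂(gmat (Fin (n + 1)) (Fin (n + 1))), (Matrix.of (mnr M)).det ≠ 0 :=
      (mnr_mp n).quasiMeasurePreserving.ae (det_ae n)
    have h3 : Zc (Fin (n + 1)) κ ≤ C * Zc (Fin n) κ := by
      unfold Zc
      rw [resample2 _ (detw_meas κ)]
      calc ∫⁻ M, ∫⁻ y, detw κ (rep M y) ∂(gaussianReal 0 1) ∂(gmat (Fin (n + 1)) (Fin (n + 1)))
          ≤ ∫⁻ M, C * detw κ (mnr M) ∂(gmat (Fin (n + 1)) (Fin (n + 1))) := by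
            refine lintegral_mono_ae ?_
            filter_upwards [h2] with M hM
            simp only [detw, det_rep]
            exact h _ _ hM
        _ = C * ∫⁻ M, detw κ (mnr M) ∂(gmat (Fin (n + 1)) (Fin (n + 1))) :=
            lintegral_const_mul _ ((detw_meas κ).comp (mnr_mp n).measurable)
        _ = C * ∫⁻ M, detw κ M ∂(gmat (Fin n) (Fin n)) := by
            rw [(mnr_mp n).lintegral_comp (detw_meas κ)]
    exact h3.trans_lt (ENNReal.mul_lt_top hC ih)


theorem entry_mp {K n : Type*} [Fintype K] [Fintype n] (k : K) (j : n) :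
    MeasurePreserving (fun M : K → n → ℝ => M k j) (gmat K n) (gaussianReal 0 1) := by
  have h1 : MeasurePreserving (Function.eval k) (gmat K n) (gm n) :=
    measurePreserving_eval (fun _ : K => gm n) k
  have h2 : MeasurePreserving (Function.eval j) (gm n) (gaussianReal 0 1) :=
    measurePreserving_eval (fun _ : n => gaussianReal 0 1) j
  exact h2.comp h1

theorem Zc_fin_nonneg {ι : Type*} [Fintype ι] [DecidableEq ι] (κ : ℝ) (hκ0 : 0 ≤ κ) :
    Zc ι κ < ∞ := by
  let x : (ι → ι → ℝ) → ℝ := fun M => 1 + ∑ k, ∑ j, |M k j|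
  let N : ℕ := Fintype.card ι
  let q : ℝ := N * κ + 1
  have hq : 0 < q := by positivity
  have hx1 : ∀ M, 1 ≤ x M := fun M => by
    have : 0 ≤ ∑ k, ∑ j, |M k j| :=
      Finset.sum_nonneg fun k _ => Finset.sum_nonneg fun j _ => abs_nonneg _
    simp only [x]
    linarith
  have hxe : ∀ M k j, |M k j| ≤ x M := by
    intro M k j
    have h1 : |M k j| ≤ ∑ j, |M k j| :=
      Finset.single_le_sum (f := fun j => |M k j|) (fun _ _ => abs_nonneg _) (Finset.mem_univ j)
    have h2 : ∑ j, |M k j| ≤ ∑ k, ∑ j, |M k j| :=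
      Finset.single_le_sum (f := fun k => ∑ j, |M k j|)
        (fun _ _ => Finset.sum_nonneg fun _ _ => abs_nonneg _) (Finset.mem_univ k)
    simp only [x]
    linarith
  have hdet : ∀ M : ι → ι → ℝ, |(Matrix.of M).det| ^ κ ≤ ((N.factorial : ℝ) ^ κ) * (x M) ^ q := by
    intro M
    have h1 : |(Matrix.of M).det| ≤ (N.factorial : ℝ) * (x M) ^ N := by
      have := Matrix.det_le (A := Matrix.of M) (abv := AbsoluteValue.abs) (x := x M)
        (fun k j => hxe M k j)
      rw [nsmul_eq_mul] at this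
      exact this
    calc |(Matrix.of M).det| ^ κ ≤ ((N.factorial : ℝ) * (x M) ^ N) ^ κ :=
          Real.rpow_le_rpow (abs_nonneg _) h1 hκ0
      _ = (N.factorial : ℝ) ^ κ * (x M) ^ (N * κ) := by
          rw [Real.mul_rpow (Nat.cast_nonneg _) (pow_nonneg (by linarith [hx1 M]) _),
            ← Real.rpow_natCast, ← Real.rpow_mul (by linarith [hx1 M])]
      _ ≤ (N.factorial : ℝ) ^ κ * (x M) ^ q := by
          refine mul_le_mul_of_nonneg_left ?_ (Real.rpow_nonneg (Nat.cast_nonneg _) _)
          refine Real.rpow_le_rpow_of_exponent_le (hx1 M) ?_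
          simp only [q]
          linarith
  have hmem : MemLp x (ENNReal.ofReal q) (gmat ι ι) := by
    refine (memLp_const (1 : ℝ)).add ?_
    refine memLp_finsetSum _ fun k _ => memLp_finsetSum _ fun j _ => ?_
    have h1 : MemLp (fun M : ι → ι → ℝ => M k j) (ENNReal.ofReal q) (gmat ι ι) :=
      (memLp_id_gaussianReal' (μ := 0) (v := 1) (ENNReal.ofReal q)
        ENNReal.ofReal_ne_top).comp_measurePreserving (entry_mp k j)
    exact h1.norm
  have hlt := lintegral_rpow_enorm_lt_top_of_eLpNorm_lt_top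
    (by simpa using hq) ENNReal.ofReal_ne_top hmem.2
  rw [ENNReal.toReal_ofReal hq.le] at hlt
  unfold Zc
  refine lt_of_le_of_lt (b := ∫⁻ M, ENNReal.ofReal ((N.factorial : ℝ) ^ κ) * ‖x M‖ₑ ^ q
    ∂(gmat ι ι)) ?_ ?_
  · refine lintegral_mono fun M => ?_
    unfold detw
    refine (ENNReal.ofReal_le_ofReal (hdet M)).trans ?_
    rw [ENNReal.ofReal_mul (Real.rpow_nonneg (Nat.cast_nonneg _) _)]
    gcongr
    rw [← ENNReal.ofReal_rpow_of_nonneg (by linarith [hx1 M]) hq.le]
    gcongr
    exact Real.ofReal_le_enorm _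
  · rw [lintegral_const_mul' _ _ ENNReal.ofReal_ne_top]
    exact ENNReal.mul_lt_top ENNReal.ofReal_lt_top hlt

/-- simultaneous reindexing -/
theorem reidx_mp {ι ι' : Type*} [Fintype ι] [Fintype ι'] (e : ι ≃ ι') :
    MeasurePreserving (fun (M : ι' → ι' → ℝ) (i j : ι) => M (e i) (e j))
      (gmat ι' ι') (gmat ι ι) := by
  have h1 : MeasurePreserving (fun (x : ι' → (ι' → ℝ)) (i : ι) => x (e i))
      (Measure.pi fun _ : ι' => gm ι') (Measure.pi fun _ : ι => gm ι') := by
    have h := measurePreserving_piCongrLeft (fun _ : ι => gm ι') e.symm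
    have h2 : ⇑(MeasurableEquiv.piCongrLeft (fun _ : ι => (ι' → ℝ)) e.symm) =
        (fun (x : ι' → (ι' → ℝ)) (i : ι) => x (e i)) := by
      funext x i
      have h3 := MeasurableEquiv.piCongrLeft_apply_apply (β := fun _ : ι => (ι' → ℝ)) e.symm x
        (e i)
      simpa using h3
    rw [h2] at h
    exact h
  have h2 : MeasurePreserving (fun (a : ι → ι' → ℝ) (i : ι) (j : ι) => a i (e j))
      (Measure.pi fun _ : ι => gm ι') (Measure.pi fun _ : ι => gm ι) :=
    measurePreserving_pi _ _ fun _ => gm_congr e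
  exact h2.comp h1

theorem Zc_congr {ι ι' : Type*} [Fintype ι] [DecidableEq ι] [Fintype ι'] [DecidableEq ι']
    (e : ι ≃ ι') (κ : ℝ) : Zc ι κ = Zc ι' κ := by
  unfold Zc
  rw [← (reidx_mp e).lintegral_comp (detw_meas κ)]
  refine lintegral_congr fun M => ?_
  unfold detw
  have : (Matrix.of fun i j : ι => M (e i) (e j)) = (Matrix.of M).submatrix e e := by
    ext i j
    simp
  rw [this, Matrix.det_submatrix_equiv_self]

theorem Zc_pos_fin (n : ℕ) (κ : ℝ) : 0 < Zc (Fin n) κ := by
  unfold Zc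
  rw [pos_iff_ne_zero]
  intro h
  rw [lintegral_eq_zero_iff (detw_meas κ)] at h
  have h2 : ∀ᵐ M ∂(gmat (Fin n) (Fin n)), False := by
    filter_upwards [h, det_ae n] with M hM hM2
    have h3 : 0 < |(Matrix.of M).det| ^ κ := Real.rpow_pos_of_pos (abs_pos.2 hM2) _
    simp only [detw, Pi.zero_apply, ENNReal.ofReal_eq_zero] at hM
    exact absurd h3 (not_lt.2 hM)
  have h3 : gmat (Fin n) (Fin n) = 0 := by simpa using h2
  exact IsProbabilityMeasure.ne_zero (gmat (Fin n) (Fin n)) h3

theorem Zc_pos {ι : Type} [Fintype ι] [DecidableEq ι] (κ : ℝ) (hκ : -1 < κ) :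
    0 < Zc ι κ ∧ Zc ι κ < ∞ := by
  constructor
  · rw [Zc_congr (Fintype.equivFin ι) κ]
    exact Zc_pos_fin _ κ
  · rcases le_total κ 0 with h | h
    · rw [Zc_congr (Fintype.equivFin ι) κ]
      exact Zc_fin_neg κ hκ h _
    · exact Zc_fin_nonneg κ h

end Pool.Agent.TH511.WP
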